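import Pool.Agent.L7h62.SQ.Stm2

set_option autoImplicit false

namespace Pool.Agent.L7h89.SQ

open Module NumberField IsDedekindDomain Pool.Agent.L7h62.SQ

/-- `TReal` gives Mathlib's class of totally real fields. -/
theorem isTotallyReal_of_tReal {F : Type} [Field F] [NumberField F] (h : TReal F) :
    IsTotallyReal F := by
  refine ⟨fun v => ?_⟩
  rw [InfinitePlace.isReal_iff, ComplexEmbedding.isReal_iff]
  refine RingHom.ext fun x => ?_
  rw [ComplexEmbedding.conjugate_coe_eq]
  exact Complex.conj_eq_iff_im.2 (h _ x)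

theorem s_SEL : S_SEL := by
  intro F _ _ hF hodd x hx hpos hev
  have := isTotallyReal_of_tReal hF
  obtain ⟨y, hy⟩ := Pool.Agent.Y682.elt_sq hodd (Units.mk0 x hx) (fun φ => hpos φ)
    (fun v => hev v)
  refine ⟨(y : F), ?_⟩
  have h := congrArg (fun z : Fˣ => (z : F)) hy
  simpa using h.symm

end Pool.Agent.L7h89.SQ
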